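import Pool.Agent.helper92.VC.Spec

/-!
Row vc:LMV: elimination over a valuation ring.
-/

universe u

namespace Pool.Agent.helper92.VC

open MvPolynomial

/-- the case of coordinate vectors -/
theorem LMV_aux (R K : Type u) [CommRing R] [IsDomain R] [ValuationRing R] [Field K]
    [Algebra R K] [IsFractionRing R K] (C : Type) [Fintype C] : ∀ (w : ℕ) (ρ : C → Fin w → K),
    ∃ (m : ℕ) (b : Fin m → C) (r : C → Fin m → R), m ≤ w ∧
      ∀ c, ∀ i, ρ c i = ∑ t, algebraMap R K (r c t) * ρ (b t) i := by
  intro w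
  induction w with
  | zero =>
    intro ρ
    exact ⟨0, Fin.elim0, fun _ => Fin.elim0, le_refl _, fun c i => i.elim0⟩
  | succ w ih =>
    intro ρ
    by_cases hC : Nonempty C
    · let f : C → ValuationRing.ValueGroup R K := fun c => Quotient.mk'' (ρ c 0)
      obtain ⟨s, hs⟩ := Finite.exists_max f
      have hs' : ∀ c, ∃ a : R, algebraMap R K a * ρ s 0 = ρ c 0 := by
        intro c
        obtain ⟨a, ha⟩ := hs c
        exact ⟨a, by rw [← ha, Algebra.smul_def]⟩
      choose r0 hr0 using hs'
      obtain ⟨m, b, r, hm, hr⟩ := ih (fun c i => ρ c i.succ - algebraMap R K (r0 c) * ρ s i.succ)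
      refine ⟨m + 1, Fin.cons s b,
        fun c => Fin.cons (r0 c - ∑ t, r c t * r0 (b t)) (r c), Nat.succ_le_succ hm, ?_⟩
      have hr' : ∀ c, ∀ i, ρ c i - algebraMap R K (r0 c) * ρ s i
          = ∑ t, algebraMap R K (r c t) * (ρ (b t) i - algebraMap R K (r0 (b t)) * ρ s i) := by
        intro c i
        refine Fin.cases ?_ (fun i => ?_) i
        · rw [hr0 c, sub_self]
          symm
          apply Finset.sum_eq_zero
          intro t _
          rw [hr0, sub_self, mul_zero]
        · exact hr c i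
      intro c i
      rw [Fin.sum_univ_succ]
      simp only [Fin.cons_zero, Fin.cons_succ]
      have h := hr' c i
      rw [sub_eq_iff_eq_add] at h
      rw [h, map_sub, map_sum]
      simp only [map_mul, mul_sub, sub_mul, Finset.sum_sub_distrib, Finset.sum_mul, mul_assoc]
      ring
    · exact ⟨0, Fin.elim0, fun _ => Fin.elim0, Nat.zero_le _, fun c => (hC ⟨c⟩).elim⟩

theorem LMV : LMV_stmt.{u} := by
  intro R K _ _ _ _ _ _ E _ _ C _ w g y hy
  have hy' : ∀ c, ∃ ρ : Fin w → K, ∑ i, ρ i • g i = y c := by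
    intro c
    exact (Submodule.mem_span_range_iff_exists_fun K).1 (hy c)
  choose ρ hρ using hy'
  obtain ⟨m, b, r, hm, hr⟩ := LMV_aux R K C w ρ
  refine ⟨m, b, r, hm, fun c => ?_⟩
  rw [← hρ c]
  have h1 : ∀ t, algebraMap R K (r c t) • y (b t)
      = ∑ i, (algebraMap R K (r c t) * ρ (b t) i) • g i := by
    intro t
    rw [← hρ (b t), Finset.smul_sum]
    simp only [mul_smul]
  simp only [h1]
  rw [Finset.sum_comm]
  apply Finset.sum_congr rfl
  intro i _
  rw [hr c i, Finset.sum_smul]

end Pool.Agent.helper92.VC
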